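import Pool.Agent.H96.PlantedF

set_option autoImplicit false

open Filter Topology

namespace Pool.Agent.Results.MP_667a4a_pr.StrictJensenGap

open Classical in
/-- `Σ_{N,M}`: the strictly increasing maps `[M] → [N]`. -/
noncomputable def incMaps (N M : ℕ) : Finset (Fin M → Fin N) :=
  Finset.univ.filter (fun σ => StrictMono σ)

open Classical in
/-- `Z_{X,Y}`: the number of `σ ∈ Σ_{N,M}` with `X_σ = Y`. -/
noncomputable def Z {N M : ℕ} (X : Fin N → Bool) (Y : Fin M → Bool) : ℕ :=
  ((incMaps N M).filter (fun σ => X ∘ σ = Y)).card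

/-- Expectation of `φ(X, Y)` under the planted law: `X` uniform on `{0,1}^N`, `σ*` uniform on
`Σ_{N,M}` independent of `X`, and `Y = X_{σ*}`. -/
noncomputable def plantedE (N M : ℕ) (φ : (Fin N → Bool) → (Fin M → Bool) → ℝ) : ℝ :=
  (∑ X : Fin N → Bool, ∑ σ ∈ incMaps N M, φ X (X ∘ σ)) / (2 ^ N * ((incMaps N M).card : ℝ))

/-- `𝔼[log Z_{X,Y}] / N` under the planted law. -/
noncomputable def quenched (N M : ℕ) : ℝ :=
  plantedE N M (fun X Y => Real.log (Z X Y)) / N

/-- `(log 𝔼[Z_{X,Y}]) / N` under the planted law. -/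
noncomputable def annealed (N M : ℕ) : ℝ :=
  Real.log (plantedE N M (fun X Y => (Z X Y : ℝ))) / N

/-! ### From functions to words -/

lemma S_eq_sum (n : ℕ) (φ : List Bool → ℝ) :
    H96.Planted.S n φ = ∑ X : Fin n → Bool, φ (List.ofFn X) := by
  induction n generalizing φ with
  | zero => simp [H96.Planted.S_zero]
  | succ n ih =>
    rw [H96.Planted.S_succ, ih, ih]
    rw [← (Fin.consEquiv (fun _ : Fin (n + 1) => Bool)).sum_comp, Fintype.sum_prod_type]
    simp only [Fintype.sum_bool]
    rw [add_comm]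
    congr 1 <;>
    · refine Finset.sum_congr rfl fun X _ => ?_
      rw [List.ofFn_succ]
      simp

open Classical in
lemma mem_incMaps {N M : ℕ} {σ : Fin M → Fin N} : σ ∈ incMaps N M ↔ StrictMono σ := by
  simp [incMaps]

lemma strictMono_succ_comp {N M : ℕ} {τ : Fin M → Fin N} (h : StrictMono τ) :
    StrictMono (fun i => (τ i).succ) := fun _ _ hij => Fin.succ_lt_succ_iff.mpr (h hij)

lemma strictMono_cons {N M : ℕ} {τ : Fin M → Fin N} (h : StrictMono τ) :
    StrictMono (Fin.cons 0 (fun i => (τ i).succ) : Fin (M + 1) → Fin (N + 1)) := by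
  intro i j hij
  induction j using Fin.cases with
  | zero => exact absurd hij (Fin.not_lt_zero i)
  | succ j =>
    induction i using Fin.cases with
    | zero => simp [Fin.succ_pos]
    | succ i =>
      simp only [Fin.cons_succ]
      exact Fin.succ_lt_succ_iff.mpr (h (Fin.succ_lt_succ_iff.mp hij))

open Classical in
lemma Z_succ_succ {N M : ℕ} (X : Fin (N + 1) → Bool) (Y : Fin (M + 1) → Bool) :
    Z X Y = Z (fun i => X i.succ) Y +
      if X 0 = Y 0 then Z (fun i => X i.succ) (fun i => Y i.succ) else 0 := by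
  unfold Z
  rw [← Finset.card_filter_add_card_filter_not (s := (incMaps (N + 1) (M + 1)).filter
    (fun σ => X ∘ σ = Y)) (fun σ => σ 0 = 0), add_comm]
  congr 1
  · -- first position not used
    symm
    refine Finset.card_bij (fun τ _ i => (τ i).succ) ?_ ?_ ?_
    · intro τ hτ
      simp only [Finset.mem_filter, mem_incMaps] at hτ ⊢
      refine ⟨⟨strictMono_succ_comp hτ.1, ?_⟩, ?_⟩
      · rw [← hτ.2]; rfl
      · exact Fin.succ_ne_zero _
    · intro τ _ τ' _ h
      funext i
      exact Fin.succ_injective _ (congrFun h i)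
    · intro σ hσ
      simp only [Finset.mem_filter, mem_incMaps] at hσ
      obtain ⟨⟨hm, hXY⟩, h0⟩ := hσ
      have hne : ∀ i, σ i ≠ 0 := by
        intro i hi
        have h1 : σ 0 ≤ σ i := hm.monotone (Fin.zero_le i)
        rw [hi] at h1
        exact h0 (Fin.le_zero_iff.mp h1)
      refine ⟨fun i => (σ i).pred (hne i), ?_, ?_⟩
      · simp only [Finset.mem_filter, mem_incMaps]
        refine ⟨fun i j hij => ?_, ?_⟩
        · exact Fin.pred_lt_pred_iff.mpr (hm hij)
        · rw [← hXY]
          funext i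
          simp [Function.comp]
      · funext i
        simp
  · by_cases hXY0 : X 0 = Y 0
    · rw [if_pos hXY0]
      symm
      refine Finset.card_bij (fun τ _ => (Fin.cons 0 (fun i => (τ i).succ) :
        Fin (M + 1) → Fin (N + 1))) ?_ ?_ ?_
      · intro τ hτ
        simp only [Finset.mem_filter, mem_incMaps] at hτ ⊢
        refine ⟨⟨strictMono_cons hτ.1, ?_⟩, by simp⟩
        funext i
        induction i using Fin.cases with
        | zero => simpa using hXY0
        | succ i =>
          have := congrFun hτ.2 i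
          simpa using this
      · intro τ _ τ' _ h
        funext i
        have := congrFun h i.succ
        simp only [Fin.cons_succ] at this
        exact Fin.succ_injective _ this
      · intro σ hσ
        simp only [Finset.mem_filter, mem_incMaps] at hσ
        obtain ⟨⟨hm, hXY⟩, h0⟩ := hσ
        have hne : ∀ i : Fin M, σ i.succ ≠ 0 := by
          intro i hi
          have h1 : σ 0 < σ i.succ := hm (Fin.succ_pos i)
          rw [hi, h0] at h1
          exact lt_irrefl _ h1
        refine ⟨fun i => (σ i.succ).pred (hne i), ?_, ?_⟩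
        · simp only [Finset.mem_filter, mem_incMaps]
          refine ⟨fun i j hij => ?_, ?_⟩
          · exact Fin.pred_lt_pred_iff.mpr (hm (Fin.succ_lt_succ_iff.mpr hij))
          · rw [← hXY]
            funext i
            simp [Function.comp]
        · funext i
          induction i using Fin.cases with
          | zero => simp [h0]
          | succ i => simp
    · rw [if_neg hXY0, Finset.card_eq_zero, Finset.filter_eq_empty_iff]
      intro σ hσ h0
      simp only [Finset.mem_filter, mem_incMaps] at hσ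
      apply hXY0
      rw [← hσ.2]
      simp [h0]

open Classical in
lemma Z_eq_list {N M : ℕ} (X : Fin N → Bool) (Y : Fin M → Bool) :
    Z X Y = H96.Planted.Z (List.ofFn X) (List.ofFn Y) := by
  induction N generalizing M with
  | zero =>
    cases M with
    | zero =>
      have h1 : H96.Planted.Z (List.ofFn X) (List.ofFn Y) = 1 := by
        simp [H96.Planted.Z_nil_right]
      rw [h1]
      unfold Z
      rw [Finset.card_eq_one]
      refine ⟨fun i => i.elim0, ?_⟩
      ext σ
      simp only [Finset.mem_filter, mem_incMaps, Finset.mem_singleton]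
      constructor
      · intro _; funext i; exact i.elim0
      · intro _
        exact ⟨fun i => i.elim0, by funext i; exact i.elim0⟩
    | succ M =>
      have h1 : H96.Planted.Z (List.ofFn X) (List.ofFn Y) = 0 := by
        rw [List.ofFn_succ]
        simp [H96.Planted.Z]
      rw [h1]
      unfold Z
      rw [Finset.card_eq_zero, Finset.filter_eq_empty_iff]
      intro σ _
      exact (σ 0).elim0
  | succ N ih =>
    cases M with
    | zero =>
      have h1 : H96.Planted.Z (List.ofFn X) (List.ofFn Y) = 1 := by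
        simp [H96.Planted.Z_nil_right]
      rw [h1]
      unfold Z
      rw [Finset.card_eq_one]
      refine ⟨fun i => i.elim0, ?_⟩
      ext σ
      simp only [Finset.mem_filter, mem_incMaps, Finset.mem_singleton]
      constructor
      · intro _; funext i; exact i.elim0
      · intro _
        exact ⟨fun i => i.elim0, by funext i; exact i.elim0⟩
    | succ M =>
      rw [Z_succ_succ, ih, ih, List.ofFn_succ (f := X), List.ofFn_succ (f := Y)]
      rfl

lemma card_incMaps_pos {N M : ℕ} (h : M ≤ N) : 0 < (incMaps N M).card := by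
  rw [Finset.card_pos]
  exact ⟨Fin.castLE h, mem_incMaps.mpr (Fin.strictMono_castLE h)⟩

open Classical in
lemma sum_incMaps {N M : ℕ} (X : Fin N → Bool) (φ : (Fin M → Bool) → ℝ) :
    ∑ σ ∈ incMaps N M, φ (X ∘ σ) = ∑ Y : Fin M → Bool, (Z X Y : ℝ) * φ Y := by
  rw [← Finset.sum_fiberwise (incMaps N M) (fun σ => X ∘ σ)]
  refine Finset.sum_congr rfl fun Y _ => ?_
  unfold Z
  rw [← nsmul_eq_mul, ← Finset.sum_const]
  refine Finset.sum_congr rfl fun σ hσ => ?_
  rw [(Finset.mem_filter.mp hσ).2]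

lemma sum_Z_eq_Dc {N M : ℕ} (X : Fin N → Bool) :
    ∑ σ ∈ incMaps N M, (Z X (X ∘ σ) : ℝ) = H96.Planted.Dc M (List.ofFn X) [] := by
  rw [sum_incMaps X (fun Y => (Z X Y : ℝ))]
  unfold H96.Planted.Dc
  rw [S_eq_sum]
  refine Finset.sum_congr rfl fun Y _ => ?_
  rw [Z_eq_list]
  simp

lemma planted_Z {N M : ℕ} :
    plantedE N M (fun X Y => (Z X Y : ℝ)) = H96.Planted.ac N M / (incMaps N M).card := by
  unfold plantedE H96.Planted.ac
  rw [S_eq_sum, div_div]
  congr 1
  exact Finset.sum_congr rfl fun X _ => sum_Z_eq_Dc X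

lemma Z_pos {N M : ℕ} (X : Fin N → Bool) {σ : Fin M → Fin N} (hσ : σ ∈ incMaps N M) :
    0 < Z X (X ∘ σ) := by
  classical
  unfold Z
  rw [Finset.card_pos]
  exact ⟨σ, Finset.mem_filter.mpr ⟨hσ, rfl⟩⟩

lemma planted_log_Z {N M : ℕ} (hM : M ≤ N) :
    plantedE N M (fun X Y => Real.log (Z X Y)) ≤
      H96.Planted.S N (fun X => Real.log (H96.Planted.Dc M X [])) / 2 ^ N -
        Real.log (incMaps N M).card := by
  have hBn := card_incMaps_pos hM
  have hB : (0 : ℝ) < (incMaps N M).card := by exact_mod_cast hBn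
  set B : ℝ := ((incMaps N M).card : ℝ) with hBdef
  -- for each X
  have hX : ∀ X : Fin N → Bool, ∑ σ ∈ incMaps N M, Real.log (Z X (X ∘ σ)) ≤
      B * (Real.log (H96.Planted.Dc M (List.ofFn X) []) - Real.log B) := by
    intro X
    have hD : 0 < H96.Planted.Dc M (List.ofFn X) [] :=
      lt_of_lt_of_le one_pos (H96.Planted.Dc_ge_one _ M (by simpa using hM))
    set D := H96.Planted.Dc M (List.ofFn X) [] with hDdef
    have hpt : ∀ σ ∈ incMaps N M, Real.log (Z X (X ∘ σ)) ≤
        (Real.log D - Real.log B - 1) + (B / D) * (Z X (X ∘ σ) : ℝ) := by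
      intro σ hσ
      have hZ : (0 : ℝ) < Z X (X ∘ σ) := by exact_mod_cast Z_pos X hσ
      have h := Real.log_le_sub_one_of_pos (show 0 < (Z X (X ∘ σ) : ℝ) / (D / B) by positivity)
      rw [Real.log_div hZ.ne' (by positivity), Real.log_div hD.ne' hB.ne'] at h
      have e : (Z X (X ∘ σ) : ℝ) / (D / B) = (B / D) * (Z X (X ∘ σ) : ℝ) := by
        field_simp
      rw [e] at h
      linarith
    refine (Finset.sum_le_sum hpt).trans ?_
    rw [Finset.sum_add_distrib, Finset.sum_const, nsmul_eq_mul, ← Finset.mul_sum, sum_Z_eq_Dc,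
      ← hDdef, ← hBdef]
    apply le_of_eq
    field_simp
    ring
  unfold plantedE
  rw [div_le_iff₀ (by positivity)]
  refine (Finset.sum_le_sum fun X _ => hX X).trans ?_
  rw [← Finset.mul_sum, Finset.sum_sub_distrib, Finset.sum_const, nsmul_eq_mul, S_eq_sum]
  apply le_of_eq
  have hc : ((Finset.univ : Finset (Fin N → Bool)).card : ℝ) = 2 ^ N := by
    simp
  rw [hc, ← hBdef]
  field_simp

/-- the gap for `M/N` near a fixed `α` -/
lemma gap_local {α : ℝ} (h0 : 0 < α) (h1 : α < 1) :
    ∃ δ : ℝ, 0 < δ ∧ ∃ η : ℝ, 0 < η ∧ ∃ N₀ : ℕ, ∀ N ≥ N₀, ∀ M : ℕ,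
      |(M : ℝ) - α * N| ≤ η * N → quenched N M ≤ annealed N M - δ := by
  obtain ⟨δ, hδ, η, hη, N₀, hN₀⟩ := H96.Planted.main_list h0 h1
  refine ⟨δ, hδ, min η (1 - α), lt_min hη (by linarith), max N₀ 1, fun N hN M hM => ?_⟩
  have hN1 : 1 ≤ N := le_trans (le_max_right _ _) hN
  have hNpos : (0 : ℝ) < N := by exact_mod_cast hN1
  have hMη : |(M : ℝ) - α * N| ≤ η * N :=
    hM.trans (mul_le_mul_of_nonneg_right (min_le_left _ _) hNpos.le)
  have hMN : M ≤ N := by
    have h2 : |(M : ℝ) - α * N| ≤ (1 - α) * N :=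
      hM.trans (mul_le_mul_of_nonneg_right (min_le_right _ _) hNpos.le)
    have h3 := (abs_le.mp h2).2
    have : (M : ℝ) ≤ N := by linarith
    exact_mod_cast this
  obtain ⟨hpos, hgap⟩ := hN₀ N (le_trans (le_max_left _ _) hN) M hMN hMη
  have hB : (0 : ℝ) < (incMaps N M).card := by exact_mod_cast card_incMaps_pos hMN
  unfold quenched annealed
  rw [planted_Z, Real.log_div hpos.ne' hB.ne']
  have h4 := planted_log_Z hMN
  rw [div_le_iff₀ hNpos, sub_mul, div_mul_cancel₀ _ hNpos.ne']
  linarith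

/-- **Strict Jensen gap in the planted random subsequence model.**
(1) On every compact range `M/N ∈ [a,b] ⊂ (0,1)` the quenched free energy is below the annealed
one by a positive constant, uniformly for all large `N`.
(2) Consequently, for every `α ∈ (0,1)`, along all sequences `N_k → ∞`, `M_k/N_k → α`, the limits
`f_pl(α)` and `f_pl^ann(α)` satisfy `f_pl(α) < f_pl^ann(α)`. -/
theorem result :
    (∀ a b : ℝ, 0 < a → b < 1 → ∃ δ : ℝ, 0 < δ ∧ ∃ N₀ : ℕ, ∀ N ≥ N₀, ∀ M : ℕ,
      a * N ≤ M → M ≤ b * N → quenched N M ≤ annealed N M - δ) ∧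
    (∀ α : ℝ, 0 < α → α < 1 → ∀ N M : ℕ → ℕ, Tendsto N atTop atTop →
      Tendsto (fun k => (M k : ℝ) / N k) atTop (𝓝 α) → ∀ fpl fann : ℝ,
      Tendsto (fun k => quenched (N k) (M k)) atTop (𝓝 fpl) →
      Tendsto (fun k => annealed (N k) (M k)) atTop (𝓝 fann) → fpl < fann) := by
  have key : ∀ a b : ℝ, 0 < a → b < 1 → ∃ δ : ℝ, 0 < δ ∧ ∃ N₀ : ℕ, ∀ N ≥ N₀, ∀ M : ℕ,
      (M : ℝ) / N ∈ Set.Icc a b → quenched N M ≤ annealed N M - δ := by
    intro a b ha hb
    refine (isCompact_Icc (a := a) (b := b)).induction_on (p := fun s => ∃ δ : ℝ, 0 < δ ∧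
      ∃ N₀ : ℕ, ∀ N ≥ N₀, ∀ M : ℕ, (M : ℝ) / N ∈ s → quenched N M ≤ annealed N M - δ)
      ?_ ?_ ?_ ?_
    · exact ⟨1, one_pos, 0, fun N _ M h => absurd h (Set.notMem_empty _)⟩
    · rintro s t hst ⟨δ, hδ, N₀, h⟩
      exact ⟨δ, hδ, N₀, fun N hN M hM => h N hN M (hst hM)⟩
    · rintro s t ⟨δ, hδ, N₀, h⟩ ⟨δ', hδ', N₀', h'⟩
      refine ⟨min δ δ', lt_min hδ hδ', max N₀ N₀', fun N hN M hM => ?_⟩
      have m1 := min_le_left δ δ'
      have m2 := min_le_right δ δ'
      rcases hM with hM | hM
      · have := h N (le_trans (le_max_left _ _) hN) M hM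
        linarith
      · have := h' N (le_trans (le_max_right _ _) hN) M hM
        linarith
    · intro α hα
      obtain ⟨δ, hδ, η, hη, N₀, h⟩ := gap_local (lt_of_lt_of_le ha hα.1) (lt_of_le_of_lt hα.2 hb)
      refine ⟨Metric.closedBall α η, mem_nhdsWithin_of_mem_nhds (Metric.closedBall_mem_nhds α hη),
        δ, hδ, max N₀ 1, fun N hN M hM => ?_⟩
      apply h N (le_trans (le_max_left _ _) hN) M
      have hN1 : 1 ≤ N := le_trans (le_max_right _ _) hN
      have hNpos : (0 : ℝ) < N := by exact_mod_cast hN1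
      rw [Metric.mem_closedBall, Real.dist_eq] at hM
      have e : (M : ℝ) - α * N = ((M : ℝ) / N - α) * N := by field_simp
      rw [e, abs_mul, abs_of_pos hNpos]
      exact mul_le_mul_of_nonneg_right hM hNpos.le
  refine ⟨?_, ?_⟩
  · intro a b ha hb
    obtain ⟨δ, hδ, N₀, h⟩ := key a b ha hb
    refine ⟨δ, hδ, max N₀ 1, fun N hN M h1 h2 => ?_⟩
    have hN1 : 1 ≤ N := le_trans (le_max_right _ _) hN
    have hNpos : (0 : ℝ) < N := by exact_mod_cast hN1
    apply h N (le_trans (le_max_left _ _) hN) M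
    exact ⟨(le_div_iff₀ hNpos).mpr h1, (div_le_iff₀ hNpos).mpr h2⟩
  · intro α h0 h1 N M hN hMN fpl fann hq hann
    obtain ⟨δ, hδ, N₀, h⟩ := key (α / 2) ((1 + α) / 2) (by linarith) (by linarith)
    have hev : ∀ᶠ k in atTop, quenched (N k) (M k) ≤ annealed (N k) (M k) - δ := by
      have e1 : ∀ᶠ k in atTop, (M k : ℝ) / N k ∈ Set.Icc (α / 2) ((1 + α) / 2) :=
        hMN.eventually (Icc_mem_nhds (by linarith) (by linarith))
      filter_upwards [e1, hN.eventually (eventually_ge_atTop N₀)] with k hk1 hk2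
      exact h (N k) hk2 (M k) hk1
    have hle := le_of_tendsto_of_tendsto hq (hann.sub_const δ) hev
    linarith

end Pool.Agent.Results.MP_667a4a_pr.StrictJensenGap
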